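import Mathlib

namespace Pool.Agent.Results.MP_0d27c8_co.FourFifths

open Finset SimpleGraph

variable {V : Type} [Fintype V] [DecidableEq V]

/-- The number of external private neighbours plus self private neighbours of `U`. -/
def score (G : SimpleGraph V) [DecidableRel G.Adj] (U : Finset V) : ℕ :=
  (univ.filter (fun w => w ∉ U ∧ (G.neighborFinset w ∩ U).card = 1)).card +
    (U.filter (fun w => G.neighborFinset w ∩ U = ∅)).card

/-- `ESPN(G)`, the maximum of `score` over all vertex sets. -/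
def espn (G : SimpleGraph V) [DecidableRel G.Adj] : ℕ := univ.sup (score G)

def PI (a0 a1 a b0 b : ℤ) : Prop :=
  ((a0 - a) % 5 = 0 ∧ (a1 - a) % 5 = 0 ∧ (b0 - a) % 5 = 0 ∧ (b - a) % 5 = 0 ∧
    a0 ≤ a ∧ a1 ≤ a ∧ b0 ≤ b) ∧
  ((-4 ≤ a0 ∧ -4 ≤ b0) ∨ (-4 ≤ a0 ∧ -4 ≤ a1 ∧ -20 ≤ 3 * a0 + 2 * b0 ∧ -20 ≤ 3 * a1 + 2 * b0) ∨
   (-3 ≤ a1 ∧ -15 ≤ 3 * a1 + 2 * b0) ∨ (-2 ≤ a ∧ -10 ≤ 3 * a + 2 * b0) ∨
   (3 ≤ a1 ∧ 5 ≤ 3 * a1 + 2 * b) ∨ (4 ≤ a ∧ 10 ≤ 3 * a + 2 * b))

def BX (o i p j : ℤ) : Prop :=
  ((i - o) % 5 = 0 ∧ (p - o) % 5 = 0 ∧ (j - o) % 5 = 0) ∧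
  ((-4 ≤ o ∧ 1 ≤ i ∧ 1 ≤ p ∧ -4 ≤ j) ∨ (0 ≤ o ∧ 0 ≤ i ∧ 0 ≤ p ∧ -5 ≤ j) ∨
   (2 ≤ o ∧ 2 ≤ i ∧ -3 ≤ p ∧ -3 ≤ j) ∨ (2 ≤ o ∧ -3 ≤ i ∧ 2 ≤ p) ∨
   (-2 ≤ o ∧ 3 ≤ i ∧ -2 ≤ p ∧ -2 ≤ j) ∨ (4 ≤ o ∧ 4 ≤ p) ∨ (4 ≤ o ∧ -1 ≤ i ∧ -1 ≤ p ∧ -6 ≤ j) ∨
   (0 ≤ o ∧ 0 ≤ i ∧ 5 ≤ p) ∨ (6 ≤ o ∧ 1 ≤ p) ∨ (8 ≤ i ∧ -2 ≤ p ∧ 3 ≤ j) ∨ (12 ≤ i ∧ 7 ≤ j))

lemma step {a0 a1 a b0 b o i p j : ℤ} (h : PI a0 a1 a b0 b) (h' : BX o i p j) :
    PI (a0 + o) (max (a1 + o) (a0 + i)) (a + max o i) (b0 + p) (b + max p j) := by
  obtain ⟨h1, h2⟩ := h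
  obtain ⟨h3, h4⟩ := h'
  refine ⟨by omega, ?_⟩
  have l1 := le_max_left (a1 + o) (a0 + i)
  have l2 := le_max_right (a1 + o) (a0 + i)
  have l3 := le_max_left o i
  have l4 := le_max_right o i
  have l5 := le_max_left p j
  have l6 := le_max_right p j
  generalize max (a1 + o) (a0 + i) = m1 at *
  generalize max o i = m2 at *
  generalize max p j = m3 at *
  obtain ⟨-, -, -, -, h5, h6, h7⟩ := h1
  clear h3
  rcases h2 with h | h | h | h | h | h <;>
    rcases h4 with g | g | g | g | g | g | g | g | g | g | g <;>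
    first
      | exact Or.inl (by omega)
      | exact Or.inr (Or.inl (by omega))
      | exact Or.inr (Or.inr (Or.inl (by omega)))
      | exact Or.inr (Or.inr (Or.inr (Or.inl (by omega))))
      | exact Or.inr (Or.inr (Or.inr (Or.inr (Or.inl (by omega)))))
      | exact Or.inr (Or.inr (Or.inr (Or.inr (Or.inr (by omega)))))

lemma fin {a0 a1 a b0 b : ℤ} (h : PI a0 a1 a b0 b) :
    BX (max (a1 + 5) a) (max (b0 + 5) b) (max (a0 + 5) a) b := by
  obtain ⟨h1, h2⟩ := h
  refine ⟨by clear h2; omega, ?_⟩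
  have l1 := le_max_left (a1 + 5) a
  have l2 := le_max_right (a1 + 5) a
  have l3 := le_max_left (b0 + 5) b
  have l4 := le_max_right (b0 + 5) b
  have l5 := le_max_left (a0 + 5) a
  have l6 := le_max_right (a0 + 5) a
  generalize max (a1 + 5) a = m1 at *
  generalize max (b0 + 5) b = m2 at *
  generalize max (a0 + 5) a = m3 at *
  rcases h2 with g | g | g | g | g | g
  · have h : (-4 ≤ m1 ∧ 1 ≤ m2 ∧ 1 ≤ m3 ∧ -4 ≤ b) := by omega
    exact Or.inl h
  · have h : (-4 ≤ m1 ∧ 1 ≤ m2 ∧ 1 ≤ m3 ∧ -4 ≤ b) ∨ (2 ≤ m1 ∧ -3 ≤ m2 ∧ 2 ≤ m3) ∨ (4 ≤ m1 ∧ 4 ≤ m3) := by omega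
    rcases h with h | h | h
    exacts [Or.inl h, Or.inr (Or.inr (Or.inr (Or.inl h))), Or.inr (Or.inr (Or.inr (Or.inr (Or.inr (Or.inl h)))))]
  · have h : (2 ≤ m1 ∧ 2 ≤ m2 ∧ -3 ≤ m3 ∧ -3 ≤ b) ∨ (4 ≤ m1 ∧ -1 ≤ m2 ∧ -1 ≤ m3 ∧ -6 ≤ b) ∨ (6 ≤ m1 ∧ 1 ≤ m3) := by omega
    rcases h with h | h | h
    exacts [Or.inr (Or.inr (Or.inl h)), Or.inr (Or.inr (Or.inr (Or.inr (Or.inr (Or.inr (Or.inl h)))))), Or.inr (Or.inr (Or.inr (Or.inr (Or.inr (Or.inr (Or.inr (Or.inr (Or.inl h))))))))]
  · have h : (0 ≤ m1 ∧ 0 ≤ m2 ∧ 0 ≤ m3 ∧ -5 ≤ b) ∨ (2 ≤ m1 ∧ -3 ≤ m2 ∧ 2 ≤ m3) ∨ (-2 ≤ m1 ∧ 3 ≤ m2 ∧ -2 ≤ m3 ∧ -2 ≤ b) ∨ (4 ≤ m1 ∧ 4 ≤ m3) := by omega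
    rcases h with h | h | h | h
    exacts [Or.inr (Or.inl h), Or.inr (Or.inr (Or.inr (Or.inl h))), Or.inr (Or.inr (Or.inr (Or.inr (Or.inl h)))), Or.inr (Or.inr (Or.inr (Or.inr (Or.inr (Or.inl h)))))]
  · have h : (6 ≤ m1 ∧ 1 ≤ m3) := by omega
    exact Or.inr (Or.inr (Or.inr (Or.inr (Or.inr (Or.inr (Or.inr (Or.inr (Or.inl h))))))))
  · have h : (4 ≤ m1 ∧ 4 ≤ m3) := by omega
    exact Or.inr (Or.inr (Or.inr (Or.inr (Or.inr (Or.inl h)))))

lemma root {o i p j : ℤ} (h : BX o i p j) : 0 ≤ o ∨ 0 ≤ i := by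
  obtain ⟨h1, h2⟩ := h
  omega

def OK (w : Bool → Bool → ℤ) : Prop :=
  BX (w false false) (w false true) (w true false) (w true true)

def ind (p m : Bool) (k : ℕ) : ℤ :=
  if (if p then 1 else 0) + k = (if m then 0 else 1) then 1 else 0

lemma part (val : V → Bool → Bool → ℤ) (C : Finset V) (h : ∀ c ∈ C, OK (val c)) :
    ∃ a1, PI (-4 + ∑ c ∈ C, val c false false) a1
      (-4 + ∑ c ∈ C, max (val c false false) (val c false true)) (-4 + ∑ c ∈ C, val c true false)
      (-4 + ∑ c ∈ C, max (val c true false) (val c true true)) ∧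
      (a1 + 5 ≤ -4 + ∑ c ∈ C, max (val c false false) (val c false true) ∨
        ∃ x ∈ C, a1 ≤ -4 + ∑ c ∈ C, val c false false - val x false false + val x false true) := by
  induction C using Finset.induction_on with
  | empty => exact ⟨-9, by simp [PI], Or.inl (by simp)⟩
  | insert c C hc ih =>
    obtain ⟨a1, h1, h2⟩ := ih (fun x hx => h x (mem_insert_of_mem hx))
    have h3 := step h1 (h c (mem_insert_self _ _))
    simp only [Finset.sum_insert hc, add_comm (val c _ _), add_comm (max (val c _ _) _),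
      ← add_assoc]
    refine ⟨_, h3, ?_⟩
    rcases max_choice (a1 + val c false false)
      (-4 + ∑ c ∈ C, val c false false + val c false true) with e | e <;> rw [e]
    · rcases h2 with h2 | ⟨x, hx, h2⟩
      · left
        have := le_max_left (val c false false) (val c false true)
        linarith
      · right
        exact ⟨x, mem_insert_of_mem hx, by linarith⟩
    · right
      exact ⟨c, mem_insert_self _ _, by linarith⟩

def Good (val : V → Bool → Bool → ℤ) (C : Finset V) (w : Bool → Bool → ℤ)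
    (s : Bool → Bool → V → Bool) : Prop :=
  OK w ∧ ∀ p m, w p m ≤ 5 * ind p m (C.filter (fun c => s p m c = true)).card - 4 +
    ∑ c ∈ C, val c m (s p m c)

lemma vertex (val : V → Bool → Bool → ℤ) (C : Finset V) (h : ∀ c ∈ C, OK (val c)) :
    ∃ w s, Good val C w s := by
  obtain ⟨a1, h1, h2⟩ := part val C h
  have hB := fin h1
  let E : Bool → Bool → ℤ → Prop := fun p m x => ∃ s : V → Bool,
    x ≤ 5 * ind p m (C.filter (fun c => s c = true)).card - 4 + ∑ c ∈ C, val c m (s c)
  have hind : ∀ p m k, 0 ≤ ind p m k := fun p m k => by unfold ind; split_ifs <;> omega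
  have Emax : ∀ p m, E p m (-4 + ∑ c ∈ C, max (val c m false) (val c m true)) := by
    intro p m
    refine ⟨fun c => decide (val c m false ≤ val c m true), ?_⟩
    have e : ∑ c ∈ C, max (val c m false) (val c m true) =
        ∑ c ∈ C, val c m (decide (val c m false ≤ val c m true)) := by
      refine Finset.sum_congr rfl (fun c _ => ?_)
      by_cases hc : val c m false ≤ val c m true
      · rw [max_eq_right hc, decide_eq_true hc]
      · rw [max_eq_left (le_of_not_ge hc), decide_eq_false hc]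
    have := hind p m (C.filter (fun c => decide (val c m false ≤ val c m true) = true)).card
    linarith
  have Eout : ∀ m, E (!m) m (-4 + ∑ c ∈ C, val c m false + 5) := by
    intro m
    refine ⟨fun _ => false, ?_⟩
    have : ind (!m) m (C.filter (fun _ => false = true)).card = 1 := by cases m <;> simp [ind]
    rw [this]
    linarith
  have Eor : ∀ p m x y, E p m x → E p m y → E p m (max x y) := by
    intro p m x y hx hy
    rcases max_choice x y with e | e <;> rw [e] <;> assumption
  have Eone : E false false (a1 + 5) := by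
    rcases h2 with h2 | ⟨x, hx, h2⟩
    · obtain ⟨s, hs⟩ := Emax false false
      exact ⟨s, h2.trans hs⟩
    · refine ⟨fun c => decide (c = x), ?_⟩
      have e1 : C.filter (fun c => decide (c = x) = true) = {x} := by
        ext c
        simp only [mem_filter, decide_eq_true_eq, mem_singleton]
        exact ⟨fun h => h.2, fun h => ⟨h ▸ hx, h⟩⟩
      have e2 : ∑ c ∈ C.erase x, val c false (decide (c = x)) =
          ∑ c ∈ C.erase x, val c false false :=
        Finset.sum_congr rfl (fun c hc => by rw [decide_eq_false (mem_erase.1 hc).1])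
      have e3 : ind false false 1 = 1 := rfl
      rw [← Finset.add_sum_erase _ _ hx] at h2
      rw [e1, card_singleton, ← Finset.add_sum_erase _ _ hx, e2, e3]
      simp only [decide_true]
      linarith
  have all : ∀ p m : Bool, E p m (if p then
      (if m then -4 + ∑ c ∈ C, max (val c true false) (val c true true) else
        max (-4 + ∑ c ∈ C, val c false false + 5)
          (-4 + ∑ c ∈ C, max (val c false false) (val c false true))) else
      (if m then max (-4 + ∑ c ∈ C, val c true false + 5)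
          (-4 + ∑ c ∈ C, max (val c true false) (val c true true)) else
        max (a1 + 5) (-4 + ∑ c ∈ C, max (val c false false) (val c false true)))) := by
    intro p m
    cases p <;> cases m
    · exact Eor _ _ _ _ Eone (Emax _ _)
    · exact Eor _ _ _ _ (Eout true) (Emax _ _)
    · exact Eor _ _ _ _ (Eout false) (Emax _ _)
    · exact Emax _ _
  choose s hs using all
  exact ⟨_, s, And.intro (by exact hB) hs⟩

lemma build (ch : V → Finset V) (d : V → ℕ) (hd : ∀ v, ∀ c ∈ ch v, d c = d v + 1) (N : ℕ)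
    (hN : ∀ v, d v < N) (k : ℕ) : ∃ (val : V → Bool → Bool → ℤ) (sel : V → Bool → Bool → V → Bool),
      ∀ v, N ≤ d v + k → Good val (ch v) (val v) (sel v) := by
  induction k with
  | zero => exact ⟨fun _ _ _ => 0, fun _ _ _ _ => false, fun v hv => absurd (hN v) (by omega)⟩
  | succ k ih =>
    obtain ⟨val, sel, h⟩ := ih
    have ex : ∀ v, ∃ w s, N ≤ d v + (k + 1) → Good val (ch v) w s := by
      intro v
      by_cases hv : N ≤ d v + (k + 1)
      · obtain ⟨w, s, hw⟩ := vertex val (ch v)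
          (fun c hc => (h c (by rw [hd v c hc]; omega)).1)
        exact ⟨w, s, fun _ => hw⟩
      · exact ⟨val v, sel v, fun h => absurd h hv⟩
    choose w s hw using ex
    refine ⟨fun v => if d v + (k + 1) = N then w v else val v,
      fun v => if d v + (k + 1) = N then s v else sel v, fun v hv => ?_⟩
    have key : ∀ w' s', Good val (ch v) w' s' →
        Good (fun v => if d v + (k + 1) = N then w v else val v) (ch v) w' s' := by
      intro w' s' hg
      refine ⟨hg.1, fun p m => (hg.2 p m).trans (le_of_eq ?_)⟩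
      refine congrArg (fun z => _ + z) (Finset.sum_congr rfl (fun c hc => ?_))
      have := hd v c hc
      beta_reduce
      rw [if_neg (by omega)]
    beta_reduce
    by_cases e : d v + (k + 1) = N
    · rw [if_pos e, if_pos e]
      exact key _ _ (hw v hv)
    · rw [if_neg e, if_neg e]
      exact key _ _ (h v (by omega))

def dn (par : V → V) (sel : V → Bool → Bool → V → Bool) (m0 : Bool) : ℕ → V → Bool × Bool
  | 0, _ => (false, m0)
  | n + 1, c => ((dn par sel m0 n (par c)).2,
      sel (par c) (dn par sel m0 n (par c)).1 (dn par sel m0 n (par c)).2 c)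

lemma parent {G : SimpleGraph V} (hT : G.IsTree) (r : V) : ∃ par : V → V,
    (∀ v, v ≠ r → G.Adj v (par v) ∧ G.dist r (par v) + 1 = G.dist r v) ∧
    ∀ u v, G.Adj u v → G.dist r v + 1 = G.dist r u → par u = v := by
  have hc := hT.connected
  have ex : ∀ v, ∃ a, v ≠ r → G.Adj v a ∧ G.dist r a + 1 = G.dist r v := by
    intro v
    by_cases hv : v = r
    · exact ⟨v, fun h => absurd hv h⟩
    obtain ⟨p, hp⟩ := hc.exists_walk_length_eq_dist v r
    cases p with
    | nil => exact absurd rfl hv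
    | cons h q =>
      refine ⟨_, fun _ => ⟨h, ?_⟩⟩
      have h1 := dist_le q
      rw [Walk.length_cons, SimpleGraph.dist_comm] at hp
      rw [SimpleGraph.dist_comm] at h1
      rcases hT.dist_eq_dist_add_one_of_adj r h with h2 | h2 <;> omega
  choose par hpar using ex
  refine ⟨par, hpar, fun u v h hd => ?_⟩
  have hu : u ≠ r := by
    rintro rfl
    rw [SimpleGraph.dist_self] at hd
    omega
  obtain ⟨h1, h2⟩ := hpar u hu
  obtain ⟨p, hp⟩ := hc.exists_walk_length_eq_dist (par u) r
  obtain ⟨q, hq⟩ := hc.exists_walk_length_eq_dist v r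
  rw [SimpleGraph.dist_comm] at hp hq
  have e : Walk.cons h1 p = Walk.cons h q := (hT.existsUnique_path u r).unique
    (Walk.isPath_of_length_eq_dist _ (by rw [Walk.length_cons, hp, h2, SimpleGraph.dist_comm]))
    (Walk.isPath_of_length_eq_dist _ (by rw [Walk.length_cons, hq, hd, SimpleGraph.dist_comm]))
  have := congrArg (fun w : G.Walk u r => w.getVert 1) e
  simpa using this


lemma lower (G : SimpleGraph V) [DecidableRel G.Adj] (hT : G.IsTree) :
    4 * Fintype.card V ≤ 5 * espn G := by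
  obtain ⟨r⟩ := hT.connected.nonempty
  obtain ⟨par, hp1, hp2⟩ := parent hT r
  have hsum : ∀ (h : V → ℤ) (v : V), ∑ u ∈ G.neighborFinset v, h u =
      (if decide (v = r) then 0 else h (par v)) +
        ∑ c ∈ (univ.erase r).filter (fun c => par c = v), h c := by
    intro h v
    by_cases hv : v = r
    · rw [hv]
      simp only [decide_true, if_true, zero_add]
      refine Finset.sum_congr ?_ (fun _ _ => rfl)
      ext c
      simp only [mem_neighborFinset, mem_filter, mem_erase, mem_univ, and_true]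
      constructor
      · intro hc
        refine ⟨hc.ne', hp2 c r hc.symm ?_⟩
        rcases hT.dist_eq_dist_add_one_of_adj r hc with h2 | h2
        · rw [SimpleGraph.dist_self] at h2; omega
        · omega
      · rintro ⟨h1, h2⟩
        exact (h2 ▸ (hp1 c h1).1).symm
    · simp only [hv, decide_false, Bool.false_eq_true, if_false]
      have hni : par v ∉ (univ.erase r).filter (fun c => par c = v) := by
        intro hm
        simp only [mem_filter, mem_erase, mem_univ, and_true] at hm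
        have h1 := (hp1 v hv).2
        have h2 := (hp1 _ hm.1).2
        rw [hm.2] at h2
        omega
      rw [← Finset.sum_insert hni]
      refine Finset.sum_congr ?_ (fun _ _ => rfl)
      ext c
      simp only [mem_neighborFinset, mem_insert, mem_filter, mem_erase, mem_univ, and_true]
      constructor
      · intro hc
        rcases hT.dist_eq_dist_add_one_of_adj r hc with h2 | h2
        · exact Or.inl (hp2 v c hc h2.symm).symm
        · refine Or.inr ⟨?_, hp2 c v hc.symm h2.symm⟩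
          rintro rfl
          rw [SimpleGraph.dist_self] at h2
          omega
      · rintro (rfl | ⟨h1, h2⟩)
        · exact (hp1 v hv).1
        · exact (h2 ▸ (hp1 c h1).1).symm
  obtain ⟨val, sel, hg⟩ := build (fun v => (univ.erase r).filter (fun c => par c = v))
    (fun v => G.dist r v) (by
      intro v c hc
      simp only [mem_filter, mem_erase, mem_univ, and_true] at hc
      rw [← (hp1 c hc.1).2, hc.2]) (univ.sup (fun v => G.dist r v) + 1)
    (fun v => Nat.lt_succ_of_le (Finset.le_sup (f := fun v => G.dist r v) (mem_univ v)))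
    (univ.sup (fun v => G.dist r v) + 1)
  replace hg := fun v => hg v (Nat.le_add_left _ _)
  obtain ⟨m0, hm0⟩ : ∃ m0, 0 ≤ val r false m0 := by
    rcases root (hg r).1 with h | h <;> exact ⟨_, h⟩
  obtain ⟨P, M, hr1, hr2, hc1, hc2⟩ : ∃ P M : V → Bool, P r = false ∧ M r = m0 ∧
      (∀ c, c ≠ r → P c = M (par c)) ∧
      ∀ c, c ≠ r → M c = sel (par c) (P (par c)) (M (par c)) c := by
    refine ⟨fun v => (dn par sel m0 (G.dist r v) v).1, fun v => (dn par sel m0 (G.dist r v) v).2,
      ?_, ?_, fun c hc => ?_, fun c hc => ?_⟩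
    · simp only [SimpleGraph.dist_self, dn]
    · simp only [SimpleGraph.dist_self, dn]
    · beta_reduce
      rw [← (hp1 c hc).2]
      rfl
    · beta_reduce
      rw [← (hp1 c hc).2]
      rfl
  obtain ⟨U, hU⟩ : ∃ U : Finset V, ∀ v, v ∈ U ↔ M v = true :=
    ⟨univ.filter (fun v => M v = true), fun v => by simp⟩
  have key : ∀ v, val v (P v) (M v) ≤
      5 * ((if v ∉ U ∧ (G.neighborFinset v ∩ U).card = 1 then 1 else 0) +
        (if v ∈ U ∧ G.neighborFinset v ∩ U = ∅ then 1 else 0)) - 4 +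
      ∑ c ∈ (univ.erase r).filter (fun c => par c = v), val c (P c) (M c) := by
    intro v
    have h := (hg v).2 (P v) (M v)
    have hc : ∀ c ∈ (univ.erase r).filter (fun c => par c = v),
        P c = M v ∧ M c = sel v (P v) (M v) c := by
      intro c hc
      simp only [mem_filter, mem_erase, mem_univ, and_true] at hc
      exact ⟨hc.2 ▸ hc1 c hc.1, hc.2 ▸ hc2 c hc.1⟩
    have e1 : ∑ c ∈ (univ.erase r).filter (fun c => par c = v), val c (P c) (M c) =
        ∑ c ∈ (univ.erase r).filter (fun c => par c = v), val c (M v) (sel v (P v) (M v) c) :=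
      Finset.sum_congr rfl (fun c h => by rw [(hc c h).1, (hc c h).2])
    have e2 : (G.neighborFinset v ∩ U).card = (if P v then 1 else 0) +
        (((univ.erase r).filter (fun c => par c = v)).filter
          (fun c => sel v (P v) (M v) c = true)).card := by
      have h1 := hsum (fun u => if u ∈ U then 1 else 0) v
      have h2 : ((univ.erase r).filter (fun c => par c = v)).filter (fun c => c ∈ U) =
          ((univ.erase r).filter (fun c => par c = v)).filter
            (fun c => sel v (P v) (M v) c = true) :=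
        Finset.filter_congr (fun c h => by rw [hU, (hc c h).2])
      rw [Finset.sum_boole, Finset.sum_boole, filter_mem_eq_inter, h2] at h1
      have h3 : (if decide (v = r) then (0 : ℤ) else if par v ∈ U then 1 else 0) =
          ((if P v then 1 else 0 : ℕ) : ℤ) := by
        by_cases hv : v = r
        · simp [hv, hr1]
        · simp [hv, hU, hc1 v hv]
      rw [h3] at h1
      exact_mod_cast h1
    have e3 : ind (P v) (M v) (((univ.erase r).filter (fun c => par c = v)).filter
        (fun c => sel v (P v) (M v) c = true)).card =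
        (if v ∉ U ∧ (G.neighborFinset v ∩ U).card = 1 then 1 else 0) +
          (if v ∈ U ∧ G.neighborFinset v ∩ U = ∅ then 1 else 0) := by
      unfold ind
      rw [← e2]
      simp only [hU, ← card_eq_zero]
      cases M v <;> simp
    rw [e1, ← e3]
    exact h
  have tot := Finset.sum_le_sum (fun v (_ : v ∈ (univ : Finset V)) => key v)
  rw [Finset.sum_add_distrib, Finset.sum_fiberwise,
    ← Finset.add_sum_erase _ (fun v => val v (P v) (M v)) (mem_univ r)] at tot
  have e : univ.filter (fun v => v ∈ U ∧ G.neighborFinset v ∩ U = ∅) =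
      U.filter (fun v => G.neighborFinset v ∩ U = ∅) := by
    ext v
    simp only [mem_filter, mem_univ, true_and]
  simp only [Finset.sum_sub_distrib, ← Finset.mul_sum, Finset.sum_add_distrib, Finset.sum_boole,
    sum_const, card_univ, nsmul_eq_mul, hr1, hr2, e] at tot
  have hs : score G U ≤ espn G := Finset.le_sup (f := score G) (mem_univ U)
  unfold score at hs
  omega

def S : SimpleGraph (Fin 5) where
  Adj a b := (a, b) ∈ ([(0, 1), (0, 2), (0, 3), (3, 4), (1, 0), (2, 0), (3, 0), (4, 3)] :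
    List (Fin 5 × Fin 5))
  symm := ⟨by decide⟩
  loopless := ⟨by decide⟩

instance : DecidableRel S.Adj := fun _ _ => inferInstanceAs (Decidable (_ ∈ _))

theorem result :
    (∀ (V : Type) [Fintype V] [DecidableEq V] (G : SimpleGraph V) [DecidableRel G.Adj],
      G.IsTree → 4 * Fintype.card V ≤ 5 * espn G) ∧
    IsLeast {x : ℚ | ∃ (n : ℕ) (G : SimpleGraph (Fin n)) (_ : DecidableRel G.Adj), G.IsTree ∧
      x = (espn G : ℚ) / n} (4 / 5) := by
  refine ⟨fun V _ _ G _ hT => lower G hT, ⟨5, S, inferInstance, ?_, ?_⟩, ?_⟩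
  · rw [isTree_iff_connected_and_card]
    refine ⟨by decide +kernel, ?_⟩
    have : S.edgeFinset.card = 4 := by decide +kernel
    rw [Nat.card_eq_fintype_card, ← edgeFinset_card, this]
    simp
  · have : espn S = 4 := by decide +kernel
    rw [this]
    norm_num
  · rintro x ⟨n, G, _, hT, rfl⟩
    have h := lower G hT
    rw [Fintype.card_fin] at h
    have hn : 0 < n := Fin.pos_iff_nonempty.2 hT.connected.nonempty
    have h1 : (0 : ℚ) < n := by exact_mod_cast hn
    have h2 : (4 : ℚ) * n ≤ 5 * espn G := by exact_mod_cast h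
    rw [le_div_iff₀ h1]
    linarith

end Pool.Agent.Results.MP_0d27c8_co.FourFifths
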